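import Pool.Agent.Y5.V.Stm

/-!
Project VL, part ENR (by helper794): the energy identity.
-/

open Set Filter Topology
open scoped ComplexConjugate

set_option autoImplicit false

namespace Pool.Agent.Y794.VL.Enr

open Pool.Agent

open Pool.Agent.Y5.V
open Pool.Agent.Y6.M (Z3 C3 Coef dt kc cj nsq len adv leray IsField energy)

/-- Derivative of a series, within a convex set. -/
theorem hasDeriv_tsum {ι : Type*} (f f' : ι → ℝ → ℝ) (u : ι → ℝ) (S : Set ℝ)
    (hS : Convex ℝ S) (hu : Summable u)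
    (hf : ∀ k, ∀ s ∈ S, HasDerivWithinAt (f k) (f' k s) S s)
    (hb : ∀ k, ∀ s ∈ S, |f' k s| ≤ u k) (t : ℝ) (ht : t ∈ S)
    (hsum : ∀ s ∈ S, Summable (fun k => f k s)) :
    HasDerivWithinAt (fun s => ∑' k, f k s) (∑' k, f' k t) S t := by
  rw [hasDerivWithinAt_iff_tendsto_slope]
  have h1 : ∀ s ∈ S \ {t}, slope (fun s => ∑' k, f k s) t s = ∑' k, slope (f k) t s := by
    intro s hs
    simp only [slope_def_field]
    rw [← Summable.tsum_sub (hsum s hs.1) (hsum t ht), tsum_div_const]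
  have h2 : Tendsto (fun s => ∑' k, slope (f k) t s) (𝓝[S \ {t}] t) (𝓝 (∑' k, f' k t)) := by
    refine tendsto_tsum_of_dominated_convergence hu
      (fun k => (hasDerivWithinAt_iff_tendsto_slope.1 (hf k t ht))) ?_
    filter_upwards [self_mem_nhdsWithin] with s hs k
    rw [slope_def_field, Real.norm_eq_abs, abs_div, div_le_iff₀ (abs_pos.2 (sub_ne_zero.2 hs.2))]
    have := hS.norm_image_sub_le_of_norm_hasDerivWithin_le (f := f k) (fun x hx => hf k x hx)
      (fun x hx => hb k x hx) ht hs.1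
    simpa using this
  refine h2.congr' ?_
  filter_upwards [self_mem_nhdsWithin] with s hs
  exact (h1 s hs).symm

theorem one_le_len {k : Z3} (hk : k ≠ 0) : 1 ≤ len k := by
  have h1 : ∃ j, k j ≠ 0 := by
    by_contra hcon
    push Not at hcon
    exact hk (funext hcon)
  obtain ⟨j, hj⟩ := h1
  have h2 : (1 : ℤ) ≤ nsq k := by
    have h3 : k j ^ 2 ≤ nsq k :=
      Finset.single_le_sum (f := fun j => k j ^ 2) (fun i _ => sq_nonneg (k i)) (Finset.mem_univ j)
    have h4 : 0 < k j ^ 2 := by positivity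
    omega
  have h5 : (1 : ℝ) ≤ (nsq k : ℝ) := by exact_mod_cast h2
  unfold len
  rw [Real.one_le_sqrt]
  exact h5

theorem len_nonneg (k : Z3) : 0 ≤ len k := Real.sqrt_nonneg _

theorem abs_le_len (k : Z3) (i : Fin 3) : |(k i : ℝ)| ≤ len k := by
  have h3 : k i ^ 2 ≤ nsq k :=
    Finset.single_le_sum (f := fun j => k j ^ 2) (fun i _ => sq_nonneg (k i)) (Finset.mem_univ i)
  unfold len
  apply Real.abs_le_sqrt
  exact_mod_cast h3

/-- the weight -/
noncomputable def wk (k : Z3) : ℝ := if k = 0 then 0 else (len k ^ 4)⁻¹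

theorem wk_nonneg (k : Z3) : 0 ≤ wk k := by
  unfold wk
  split_ifs
  · exact le_rfl
  · have := len_nonneg k
    positivity

theorem le_wk {V : Coef} (h0 : V 0 = 0) {M : ℝ} (hM : ∀ k j, len k ^ 4 * ‖V k j‖ ≤ M) (k : Z3)
    (j : Fin 3) : ‖V k j‖ ≤ M * wk k := by
  unfold wk
  split_ifs with hk
  · rw [hk, h0]
    simp
  · have h1 := one_le_len hk
    have h2 : 0 < len k ^ 4 := by positivity
    rw [← div_eq_mul_inv, le_div_iff₀ h2, mul_comm]
    exact hM k j

theorem norm_dt_le {a : C3} {A : ℝ} (ha : ∀ i, ‖a i‖ ≤ A) (q : Z3) :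
    ‖dt a (kc q)‖ ≤ 3 * A * len q := by
  unfold dt kc
  refine (norm_sum_le _ _).trans ?_
  have h1 : ∀ i ∈ (Finset.univ : Finset (Fin 3)), ‖a i * (q i : ℂ)‖ ≤ A * len q := by
    intro i _
    rw [norm_mul, Complex.norm_intCast]
    exact mul_le_mul (ha i) (abs_le_len q i) (abs_nonneg _) ((norm_nonneg _).trans (ha i))
  refine (Finset.sum_le_sum h1).trans ?_
  rw [Finset.sum_const, Finset.card_univ, Fintype.card_fin, nsmul_eq_mul]
  push_cast
  linarith

/-- the terms of the advection -/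
noncomputable def FF (V : Coef) (k p : Z3) (j : Fin 3) : ℂ :=
  2 * Real.pi * Complex.I * dt (V p) (kc (k - p)) * V (k - p) j

theorem adv_eq (V : Coef) (k : Z3) (j : Fin 3) : adv V k j = ∑' p, FF V k p j := rfl

theorem norm_FF_le {V : Coef} (h0 : V 0 = 0) {M4 M1 : ℝ}
    (hM4 : ∀ k j, len k ^ 4 * ‖V k j‖ ≤ M4) (hM1 : ∀ k j, len k * ‖V k j‖ ≤ M1) (k p : Z3)
    (j : Fin 3) : ‖FF V k p j‖ ≤ 6 * Real.pi * M4 * M1 * wk p := by
  have h1 := norm_dt_le (fun i => le_wk h0 hM4 p i) (k - p)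
  have h2 := hM1 (k - p) j
  have h3 : 0 ≤ M4 * wk p := (norm_nonneg _).trans (le_wk h0 hM4 p 0)
  unfold FF
  rw [norm_mul, norm_mul, norm_mul, norm_mul, Complex.norm_I, mul_one, Complex.norm_real,
    Complex.norm_ofNat, Real.norm_eq_abs, abs_of_pos Real.pi_pos]
  calc 2 * Real.pi * ‖dt (V p) (kc (k - p))‖ * ‖V (k - p) j‖
      ≤ 2 * Real.pi * (3 * (M4 * wk p) * len (k - p)) * ‖V (k - p) j‖ := by
        gcongr
    _ = 6 * Real.pi * (M4 * wk p) * (len (k - p) * ‖V (k - p) j‖) := by ring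
    _ ≤ 6 * Real.pi * (M4 * wk p) * M1 := by
        have := Real.pi_pos
        gcongr
    _ = 6 * Real.pi * M4 * M1 * wk p := by ring

theorem summable_FF (hw : Summable wk) {V : Coef} (h0 : V 0 = 0) {M4 M1 : ℝ}
    (hM4 : ∀ k j, len k ^ 4 * ‖V k j‖ ≤ M4) (hM1 : ∀ k j, len k * ‖V k j‖ ≤ M1) (k : Z3)
    (j : Fin 3) : Summable (fun p => FF V k p j) :=
  Summable.of_norm_bounded (hw.mul_left _) (fun p => norm_FF_le h0 hM4 hM1 k p j)

theorem norm_adv_le (hw : Summable wk) {V : Coef} (h0 : V 0 = 0) {M4 M1 : ℝ}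
    (hM4 : ∀ k j, len k ^ 4 * ‖V k j‖ ≤ M4) (hM1 : ∀ k j, len k * ‖V k j‖ ≤ M1) (k : Z3)
    (j : Fin 3) : ‖adv V k j‖ ≤ 6 * Real.pi * M4 * M1 * ∑' p, wk p := by
  rw [adv_eq, ← tsum_mul_left]
  exact tsum_of_norm_bounded (hw.mul_left _).hasSum (fun p => norm_FF_le h0 hM4 hM1 k p j)

/-- the terms of the trilinear form -/
noncomputable def GG (V : Coef) (z : Z3 × Z3) : ℂ := ∑ j, conj (V z.1 j) * FF V z.1 z.2 j

theorem dt_sub (a : C3) (k p : Z3) : dt a (kc (k - p)) = dt a (kc k) - dt a (kc p) := by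
  unfold dt kc
  rw [← Finset.sum_sub_distrib]
  refine Finset.sum_congr rfl fun j _ => ?_
  rw [Pi.sub_apply]
  push_cast
  ring

theorem dt_comm (a b : C3) : dt a b = dt b a := by
  unfold dt
  exact Finset.sum_congr rfl fun j _ => mul_comm _ _

theorem GG_anti {V : Coef} (hV : IsField V) (k p : Z3) : GG V (p - k, p) = -GG V (k, p) := by
  unfold GG FF
  simp only
  have h1 : p - k - p = -k := by abel
  have h2 : p - k = -(k - p) := by abel
  have h3 : dt (V p) (kc (p - k - p)) = -dt (V p) (kc (k - p)) := by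
    have h4 : dt (V p) (kc p) = 0 := by rw [dt_comm]; exact hV.div p
    rw [dt_sub, dt_sub, dt_sub, h4]
    ring
  rw [h3, h1, h2, ← Finset.sum_neg_distrib]
  refine Finset.sum_congr rfl fun j _ => ?_
  rw [hV.real, hV.real, Complex.conj_conj]
  ring

theorem summable_GG (hw : Summable wk) {V : Coef} (h0 : V 0 = 0) {M4 M1 : ℝ}
    (hM4 : ∀ k j, len k ^ 4 * ‖V k j‖ ≤ M4) (hM1 : ∀ k j, len k * ‖V k j‖ ≤ M1) :
    Summable (GG V) := by
  have h1 : Summable (fun z : Z3 × Z3 => wk z.1 * wk z.2) :=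
    hw.mul_of_nonneg hw wk_nonneg wk_nonneg
  refine Summable.of_norm_bounded (h1.mul_left (3 * M4 * (6 * Real.pi * M4 * M1))) fun z => ?_
  unfold GG
  refine (norm_sum_le _ _).trans ?_
  have h2 : ∀ j ∈ (Finset.univ : Finset (Fin 3)), ‖conj (V z.1 j) * FF V z.1 z.2 j‖ ≤
      M4 * wk z.1 * (6 * Real.pi * M4 * M1 * wk z.2) := by
    intro j _
    rw [norm_mul, RCLike.norm_conj]
    exact mul_le_mul (le_wk h0 hM4 z.1 j) (norm_FF_le h0 hM4 hM1 z.1 z.2 j) (norm_nonneg _)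
      ((norm_nonneg _).trans (le_wk h0 hM4 z.1 j))
  refine (Finset.sum_le_sum h2).trans (le_of_eq ?_)
  rw [Finset.sum_const, Finset.card_univ, Fintype.card_fin, nsmul_eq_mul]
  push_cast
  ring

/-- The quadratic term does not change the energy. -/
theorem tsum_adv (hw : Summable wk) {V : Coef} (hV : IsField V) :
    ∑' k, ∑ j, conj (V k j) * adv V k j = 0 := by
  obtain ⟨M4, hM4⟩ := hV.smooth 4
  obtain ⟨M1, hM1⟩ := hV.smooth 1
  simp only [pow_one] at hM1
  have hG := summable_GG hw hV.zero hM4 hM1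
  have h1 : ∀ k, ∑ j, conj (V k j) * adv V k j = ∑' p, GG V (k, p) := by
    intro k
    unfold GG
    simp only
    rw [Summable.tsum_finsetSum fun j _ => (summable_FF hw hV.zero hM4 hM1 k j).mul_left _]
    refine Finset.sum_congr rfl fun j _ => ?_
    rw [tsum_mul_left, adv_eq]
  rw [tsum_congr h1, ← hG.tsum_prod]
  have he : Function.Involutive (fun z : Z3 × Z3 => (z.2 - z.1, z.2)) := by
    intro z
    refine Prod.ext ?_ rfl
    show z.2 - (z.2 - z.1) = z.1
    abel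
  have h2 : ∑' z, GG V z = ∑' z, GG V (he.toPerm _ z) := (Equiv.tsum_eq he.toPerm _).symm
  have h3 : ∀ z, GG V (he.toPerm _ z) = -GG V z := fun z => GG_anti hV z.1 z.2
  rw [tsum_congr h3, tsum_neg] at h2
  linear_combination (1 / 2 : ℂ) * h2

/-- The derivative of one term. -/
theorem rhs_sum {d : Z3 → ℝ} {V : Coef} (hV : IsField V) (k : Z3) :
    ∑ j, 2 * (conj (V k j) * rhs d V k j).re =
      -(2 * (d k * Y5.V.sq (V k))) - 2 * (∑ j, conj (V k j) * adv V k j).re := by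
  have h1 : ∀ j, conj (V k j) * rhs d V k j = -((d k : ℝ) : ℂ) * (((‖V k j‖ ^ 2 : ℝ)) : ℂ) -
      conj (V k j) * adv V k j +
      dt (kc k) (adv V k) / ((nsq k : ℝ) : ℂ) * (conj (V k j) * kc k j) := by
    intro j
    have h2 : conj (V k j) * V k j = (((‖V k j‖ ^ 2 : ℝ)) : ℂ) := by
      rw [← Complex.normSq_eq_norm_sq, Complex.normSq_eq_conj_mul_self]
    unfold rhs leray
    rw [← h2]
    ring
  have h3 : ∑ j, conj (V k j) * kc k j = 0 := by
    have h4 := congrArg conj (hV.div k)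
    unfold dt at h4
    rw [map_sum, map_zero] at h4
    rw [← h4]
    refine Finset.sum_congr rfl fun j _ => ?_
    rw [map_mul]
    show conj (V k j) * (k j : ℂ) = conj (k j : ℂ) * conj (V k j)
    rw [map_intCast, mul_comm]
  have h4 : ∑ j, conj (V k j) * rhs d V k j = -((d k * Y5.V.sq (V k) : ℝ) : ℂ) -
      ∑ j, conj (V k j) * adv V k j := by
    rw [Finset.sum_congr rfl fun j _ => h1 j, Finset.sum_add_distrib, Finset.sum_sub_distrib,
      ← Finset.mul_sum, ← Finset.mul_sum, h3, mul_zero, add_zero]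
    unfold Y5.V.sq
    push_cast
    ring
  rw [← Finset.mul_sum, ← Complex.re_sum, h4, Complex.sub_re, Complex.neg_re, Complex.ofReal_re]
  ring

theorem t_ENR (hS : S_SUM) : S_ENR := by
  intro d T V hd hV t ht
  have hw : Summable wk := hS
  obtain ⟨C, p, hC⟩ := hd.poly
  obtain ⟨T', hT1, hT2⟩ := exists_between ht.2
  obtain ⟨M0, hM0⟩ := hV.reg 0 T' hT2
  obtain ⟨M1, hM1⟩ := hV.reg 1 T' hT2
  obtain ⟨M4, hM4⟩ := hV.reg 4 T' hT2
  obtain ⟨Mp, hMp⟩ := hV.reg p T' hT2
  simp only [pow_one] at hM1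
  simp only [pow_zero, one_mul] at hM0
  have hIco : ∀ s ∈ Icc 0 T', s ∈ Ico 0 T := fun s hs => ⟨hs.1, hs.2.trans_lt hT2⟩
  have hF : ∀ s ∈ Icc 0 T', IsField (V s) := fun s hs => hV.field s (hIco s hs)
  have htT : t ∈ Icc 0 T' := ⟨ht.1, hT1.le⟩
  have hD : ∀ s ∈ Icc 0 T', ∀ k j, d k * ‖V s k j‖ ≤ |C| * 2 ^ p * Mp := by
    intro s hs k j
    by_cases hk : k = 0
    · rw [hk, (hF s hs).zero]
      have h1 := hMp s hs 0 0
      rw [(hF s hs).zero] at h1
      simp only [Pi.zero_apply, norm_zero, mul_zero] at h1 ⊢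
      positivity
    · have h1 := one_le_len hk
      have h2 : (1 + len k) ^ p ≤ 2 ^ p * len k ^ p := by
        rw [← mul_pow]
        exact pow_le_pow_left₀ (by linarith) (by linarith) p
      have h3 : d k ≤ |C| * (2 ^ p * len k ^ p) := by
        refine (hC k).trans ((mul_le_mul_of_nonneg_right (le_abs_self C)
          (pow_nonneg (by linarith) p)).trans ?_)
        exact mul_le_mul_of_nonneg_left h2 (abs_nonneg C)
      calc d k * ‖V s k j‖ ≤ |C| * (2 ^ p * len k ^ p) * ‖V s k j‖ :=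
            mul_le_mul_of_nonneg_right h3 (norm_nonneg _)
        _ = |C| * 2 ^ p * (len k ^ p * ‖V s k j‖) := by ring
        _ ≤ |C| * 2 ^ p * Mp := mul_le_mul_of_nonneg_left (hMp s hs k j) (by positivity)
  have hsq : ∀ s ∈ Icc 0 T', ∀ k, Y5.V.sq (V s k) ≤ 3 * M0 * M4 * wk k := by
    intro s hs k
    unfold Y5.V.sq
    have h1 : ∀ j ∈ (Finset.univ : Finset (Fin 3)), ‖V s k j‖ ^ 2 ≤ M0 * (M4 * wk k) := by
      intro j _
      rw [pow_two]
      exact mul_le_mul (hM0 s hs k j) (le_wk (hF s hs).zero (hM4 s hs) k j) (norm_nonneg _)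
        ((norm_nonneg _).trans (hM0 s hs k j))
    refine (Finset.sum_le_sum h1).trans (le_of_eq ?_)
    rw [Finset.sum_const, Finset.card_univ, Fintype.card_fin, nsmul_eq_mul]
    push_cast
    ring
  have hdsq : ∀ s ∈ Icc 0 T', ∀ k, d k * Y5.V.sq (V s k) ≤ 3 * (|C| * 2 ^ p * Mp) * M4 * wk k := by
    intro s hs k
    unfold Y5.V.sq
    rw [Finset.mul_sum]
    have h1 : ∀ j ∈ (Finset.univ : Finset (Fin 3)), d k * ‖V s k j‖ ^ 2 ≤
        |C| * 2 ^ p * Mp * (M4 * wk k) := by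
      intro j _
      rw [pow_two, ← mul_assoc]
      exact mul_le_mul (hD s hs k j) (le_wk (hF s hs).zero (hM4 s hs) k j) (norm_nonneg _)
        ((mul_nonneg (hd.nonneg k) (norm_nonneg _)).trans (hD s hs k j))
    refine (Finset.sum_le_sum h1).trans (le_of_eq ?_)
    rw [Finset.sum_const, Finset.card_univ, Fintype.card_fin, nsmul_eq_mul]
    push_cast
    ring
  have hsq0 : ∀ s k, 0 ≤ Y5.V.sq (V s k) := fun s k => Finset.sum_nonneg fun j _ => by positivity
  have hsum1 : ∀ s ∈ Icc 0 T', Summable (fun k => Y5.V.sq (V s k)) := fun s hs =>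
    Summable.of_nonneg_of_le (hsq0 s) (hsq s hs) (hw.mul_left _)
  have hsum2 : ∀ s ∈ Icc 0 T', Summable (fun k => d k * Y5.V.sq (V s k)) := fun s hs =>
    Summable.of_nonneg_of_le (fun k => mul_nonneg (hd.nonneg k) (hsq0 s k)) (hdsq s hs)
      (hw.mul_left _)
  obtain ⟨A, hA⟩ : ∃ A, A = 6 * Real.pi * M4 * M1 * ∑' p, wk p := ⟨_, rfl⟩
  have hadv : ∀ s ∈ Icc 0 T', ∀ k, ‖∑ j, conj (V s k j) * adv (V s) k j‖ ≤
      3 * M4 * A * wk k := by
    intro s hs k
    refine (norm_sum_le _ _).trans ?_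
    have h1 : ∀ j ∈ (Finset.univ : Finset (Fin 3)), ‖conj (V s k j) * adv (V s) k j‖ ≤
        M4 * wk k * A := by
      intro j _
      rw [norm_mul, RCLike.norm_conj, hA]
      exact mul_le_mul (le_wk (hF s hs).zero (hM4 s hs) k j)
        (norm_adv_le hw (hF s hs).zero (hM4 s hs) (hM1 s hs) k j) (norm_nonneg _)
        ((norm_nonneg _).trans (le_wk (hF s hs).zero (hM4 s hs) k j))
    refine (Finset.sum_le_sum h1).trans (le_of_eq ?_)
    rw [Finset.sum_const, Finset.card_univ, Fintype.card_fin, nsmul_eq_mul]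
    push_cast
    ring
  have hsum3 : ∀ s ∈ Icc 0 T', Summable (fun k => ∑ j, conj (V s k j) * adv (V s) k j) :=
    fun s hs => Summable.of_norm_bounded (hw.mul_left _) (hadv s hs)
  refine ⟨hsum1 t htT, hsum2 t htT, ?_⟩
  have main : HasDerivWithinAt (fun s => ∑' k, Y5.V.sq (V s k))
      (∑' k, (-(2 * (d k * Y5.V.sq (V t k))) - 2 * (∑ j, conj (V t k j) * adv (V t) k j).re))
      (Icc 0 T') t := by
    refine hasDeriv_tsum (fun k s => Y5.V.sq (V s k))
      (fun k s => -(2 * (d k * Y5.V.sq (V s k))) - 2 * (∑ j, conj (V s k j) * adv (V s) k j).re)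
      (fun k => (2 * (3 * (|C| * 2 ^ p * Mp) * M4) + 2 * (3 * M4 * A)) * wk k) (Icc 0 T')
      (convex_Icc _ _) (hw.mul_left _) ?_ ?_ t htT hsum1
    · intro k s hs
      by_cases hk : k = 0
      · have h1 : ∀ r ∈ Icc 0 T', Y5.V.sq (V r k) = 0 := by
          intro r hr
          unfold Y5.V.sq
          rw [hk, (hF r hr).zero]
          simp
        have h2 : (-(2 * (d k * Y5.V.sq (V s k))) -
            2 * (∑ j, conj (V s k j) * adv (V s) k j).re) = 0 := by
          rw [h1 s hs, hk, (hF s hs).zero]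
          simp
        rw [h2]
        exact (hasDerivWithinAt_const s (Icc 0 T') (0 : ℝ)).congr h1 (h1 s hs)
      · rw [← rhs_sum (hF s hs)]
        unfold Y5.V.sq
        refine HasDerivWithinAt.fun_sum fun j _ => ?_
        have h1 := ((hV.eqn k hk j s (hIco s hs)).mono hIco).norm_sq
        rw [Complex.inner, mul_comm (rhs d (V s) k j)] at h1
        exact h1
    · intro k s hs
      have h1 := hdsq s hs k
      have h2 : 0 ≤ d k * Y5.V.sq (V s k) := mul_nonneg (hd.nonneg k) (hsq0 s k)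
      have h3 := (Complex.abs_re_le_norm _).trans (hadv s hs k)
      have h4 := abs_le.1 h3
      rw [abs_le]
      constructor <;> nlinarith [h4.1, h4.2]
  have e1 : ∑' k, (-(2 * (d k * Y5.V.sq (V t k))) -
      2 * (∑ j, conj (V t k j) * adv (V t) k j).re) = -(2 * ∑' k, d k * Y5.V.sq (V t k)) := by
    have h1 : Summable (fun k => (∑ j, conj (V t k j) * adv (V t) k j).re) :=
      (Complex.hasSum_re (hsum3 t htT).hasSum).summable
    have h2 : ∑' k, (∑ j, conj (V t k j) * adv (V t) k j).re = 0 := by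
      rw [← Complex.re_tsum (hsum3 t htT), tsum_adv hw (hF t htT), Complex.zero_re]
    rw [Summable.tsum_sub ((hsum2 t htT).mul_left 2).neg (h1.mul_left 2), tsum_neg,
      tsum_mul_left, tsum_mul_left, h2, mul_zero, sub_zero]
  rw [e1] at main
  have h5 : Icc 0 T' ∈ 𝓝[Ico 0 T] t := by
    have h3 : Ico 0 T ∩ Iio T' ∈ 𝓝[Ico 0 T] t := inter_mem_nhdsWithin _ (Iio_mem_nhds hT1)
    exact mem_of_superset h3 fun s hs => ⟨hs.1.1, le_of_lt hs.2⟩
  exact main.mono_of_mem_nhdsWithin h5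

end Pool.Agent.Y794.VL.Enr
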