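import Pool.Agent.Y5.V.Stm

/-!
Project VL, part GLU (by helper794): gluing of solutions.
-/

open Set Filter Topology
open scoped ComplexConjugate

set_option autoImplicit false

namespace Pool.Agent.Y794.VL.Glu

open Pool.Agent.Y5.V
open Pool.Agent.Y6.M (Z3 C3 Coef dt kc cj nsq len adv leray IsField energy)

theorem t_GLU : S_GLU := by
  intro _ d T δ t₁ V W hd hV hW hδ ht₁ hWV hT
  classical
  let U : ℝ → Coef := fun t => if t ≤ t₁ then V t else W (t - t₁)
  have hU1 : ∀ t, t ≤ t₁ → U t = V t := fun t ht => if_pos ht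
  have hU2 : ∀ t, t₁ ≤ t → U t = W (t - t₁) := by
    intro t ht
    rcases ht.eq_or_lt with rfl | ht
    · rw [hU1 _ le_rfl, sub_self, hWV]
    · exact if_neg (not_le.2 ht)
  have hW' : ∀ k, k ≠ 0 → ∀ j, ∀ t ∈ Icc t₁ (t₁ + δ),
      HasDerivWithinAt (fun s => U s k j) (rhs d (U t) k j) (Icc t₁ (t₁ + δ)) t := by
    intro k hk j t ht
    have h1 := hW.eqn k hk j (t - t₁) ⟨by linarith [ht.1], by linarith [ht.2]⟩
    have h2 : HasDerivWithinAt (fun s => s - t₁) 1 (Icc t₁ (t₁ + δ)) t :=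
      (hasDerivWithinAt_id t _).sub_const t₁
    have h3 : MapsTo (fun s => s - t₁) (Icc t₁ (t₁ + δ)) (Icc 0 δ) := by
      intro s hs
      exact ⟨by show 0 ≤ s - t₁; linarith [hs.1], by show s - t₁ ≤ δ; linarith [hs.2]⟩
    have h4 := HasDerivWithinAt.scomp t h1 h2 h3
    rw [one_smul, ← hU2 t ht.1] at h4
    refine h4.congr (fun s hs => ?_) ?_
    · show U s k j = W (s - t₁) k j
      rw [hU2 s hs.1]
    · show U t k j = W (t - t₁) k j
      rw [hU2 t ht.1]
  refine ⟨U, ⟨fun t ht => ?_, fun q T' hT' => ?_, fun k hk j t ht => ?_⟩, hU1 0 ht₁.1⟩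
  · rcases le_total t t₁ with h | h
    · rw [hU1 t h]
      exact hV.field t ⟨ht.1, h.trans_lt ht₁.2⟩
    · rw [hU2 t h]
      exact hW.field _ ⟨by linarith, by linarith [ht.2]⟩
  · obtain ⟨M1, hM1⟩ := hV.reg q t₁ ht₁.2
    obtain ⟨M2, hM2⟩ := hW.reg q
    refine ⟨max M1 M2, fun t ht k j => ?_⟩
    rcases le_total t t₁ with h | h
    · rw [hU1 t h]
      exact (hM1 t ⟨ht.1, h⟩ k j).trans (le_max_left _ _)
    · rw [hU2 t h]
      exact (hM2 _ ⟨by linarith, by linarith [ht.2]⟩ k j).trans (le_max_right _ _)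
  · rcases lt_trichotomy t t₁ with h | h | h
    · have h1 := hV.eqn k hk j t ⟨ht.1, h.trans ht₁.2⟩
      have h2 : Ico 0 T ∈ 𝓝[Ico 0 (t₁ + δ)] t := by
        have h3 : Ico 0 (t₁ + δ) ∩ Iio t₁ ∈ 𝓝[Ico 0 (t₁ + δ)] t :=
          inter_mem_nhdsWithin _ (Iio_mem_nhds h)
        refine mem_of_superset h3 fun s hs => ⟨hs.1.1, lt_trans hs.2 ht₁.2⟩
      have h4 := h1.mono_of_mem_nhdsWithin h2
      rw [hU1 t h.le]
      refine h4.congr_of_eventuallyEq ?_ ?_
      · refine mem_nhdsWithin_of_mem_nhds (mem_of_superset (Iio_mem_nhds h) fun s hs => ?_)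
        show U s k j = V s k j
        rw [hU1 s (le_of_lt hs)]
      · show U t k j = V t k j
        rw [hU1 t h.le]
    · subst h
      have h1 := hV.eqn k hk j t ht₁
      have h2 : HasDerivWithinAt (fun s => U s k j) (rhs d (U t) k j) (Icc 0 t) t := by
        rw [hU1 t le_rfl]
        refine (h1.mono fun s hs => ⟨hs.1, hs.2.trans_lt ht₁.2⟩).congr (fun s hs => ?_) ?_
        · show U s k j = V s k j
          rw [hU1 s hs.2]
        · show U t k j = V t k j
          rw [hU1 t le_rfl]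
      have h3 := hW' k hk j t ⟨le_rfl, by linarith⟩
      refine (h2.union h3).mono fun s hs => ?_
      rcases le_total s t with h | h
      · exact Or.inl ⟨hs.1, h⟩
      · exact Or.inr ⟨h, hs.2.le⟩
    · have h1 := hW' k hk j t ⟨h.le, ht.2.le⟩
      refine h1.mono_of_mem_nhdsWithin ?_
      have h3 : Ico 0 (t₁ + δ) ∩ Ioi t₁ ∈ 𝓝[Ico 0 (t₁ + δ)] t :=
        inter_mem_nhdsWithin _ (Ioi_mem_nhds h)
      exact mem_of_superset h3 fun s hs => ⟨le_of_lt hs.2, hs.1.2.le⟩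

end Pool.Agent.Y794.VL.Glu
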