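import Pool.Agent.Y5.V.Stm

/-!
Project VL, part SYM (by helper794): symmetric data have symmetric solutions.
-/

open Set Filter Topology
open scoped ComplexConjugate

set_option autoImplicit false

namespace Pool.Agent.Y794.VL.Sym

open Pool.Agent.Y5.V
open Pool.Agent.Y6.M (Z3 C3 Coef dt kc cj nsq len adv leray IsField energy)

section

variable (σ : Equiv.Perm (Fin 3)) (ε : Fin 3 → ℤ)

/-- a signed permutation -/
def gm (k : Z3) : Z3 := fun j => ε j * k (σ j)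

/-- the transformed coefficients -/
noncomputable def tr (V : Coef) : Coef := fun k i =>
  (ε (σ.symm i) : ℂ) * V (gm σ ε k) (σ.symm i)

variable {σ ε}

theorem gm_sub (k p : Z3) : gm σ ε (k - p) = gm σ ε k - gm σ ε p := by
  funext j
  simp only [gm, Pi.sub_apply]
  ring

theorem gm_neg (k : Z3) : gm σ ε (-k) = -gm σ ε k := by
  funext j
  simp only [gm, Pi.neg_apply]
  ring

theorem gm_zero : gm σ ε 0 = 0 := by
  funext j
  simp [gm]

theorem sq_one (hε : ∀ j, ε j = 1 ∨ ε j = -1) (j : Fin 3) : ε j * ε j = 1 := by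
  rcases hε j with h | h <;> rw [h] <;> norm_num

theorem sq_oneC (hε : ∀ j, ε j = 1 ∨ ε j = -1) (j : Fin 3) : (ε j : ℂ) * (ε j : ℂ) = 1 := by
  exact_mod_cast congrArg (fun z : ℤ => (z : ℂ)) (sq_one hε j)

theorem nsq_gm (hε : ∀ j, ε j = 1 ∨ ε j = -1) (k : Z3) : nsq (gm σ ε k) = nsq k := by
  unfold nsq gm
  rw [← Equiv.sum_comp σ (fun j => k j ^ 2)]
  refine Finset.sum_congr rfl fun j _ => ?_
  rw [mul_pow, pow_two (ε j), sq_one hε, one_mul]

theorem len_gm (hε : ∀ j, ε j = 1 ∨ ε j = -1) (k : Z3) : len (gm σ ε k) = len k := by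
  unfold len
  rw [nsq_gm hε]

/-- the signed permutation is bijective -/
noncomputable def ge (hε : ∀ j, ε j = 1 ∨ ε j = -1) : Z3 ≃ Z3 where
  toFun := gm σ ε
  invFun := fun k i => ε (σ.symm i) * k (σ.symm i)
  left_inv := fun k => by
    funext i
    show ε (σ.symm i) * (ε (σ.symm i) * k (σ (σ.symm i))) = k i
    rw [← mul_assoc, sq_one hε, one_mul, Equiv.apply_symm_apply]
  right_inv := fun k => by
    funext j
    show ε j * (ε (σ.symm (σ j)) * k (σ.symm (σ j))) = k j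
    rw [Equiv.symm_apply_apply, ← mul_assoc, sq_one hε, one_mul]

theorem gm_ne (hε : ∀ j, ε j = 1 ∨ ε j = -1) {k : Z3} (hk : k ≠ 0) : gm σ ε k ≠ 0 := by
  intro h
  apply hk
  apply (ge (σ := σ) hε).injective
  show gm σ ε k = gm σ ε 0
  rw [h, gm_zero]

/-- scalar products with the transformed coefficients -/
theorem dt_tr (a : C3) (k : Z3) :
    dt (fun i => (ε (σ.symm i) : ℂ) * a (σ.symm i)) (kc k) = dt a (kc (gm σ ε k)) := by
  unfold dt kc gm
  rw [← Equiv.sum_comp σ]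
  refine Finset.sum_congr rfl fun j _ => ?_
  show (ε (σ.symm (σ j)) : ℂ) * a (σ.symm (σ j)) * (k (σ j) : ℂ) = a j * ((ε j * k (σ j) : ℤ) : ℂ)
  rw [Equiv.symm_apply_apply]
  push_cast
  ring

theorem dt_comm (a b : C3) : dt a b = dt b a := by
  unfold dt
  exact Finset.sum_congr rfl fun j _ => mul_comm _ _

theorem adv_tr (hε : ∀ j, ε j = 1 ∨ ε j = -1) (V : Coef) (k : Z3) (j : Fin 3) :
    adv (tr σ ε V) k j = (ε (σ.symm j) : ℂ) * adv V (gm σ ε k) (σ.symm j) := by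
  unfold adv
  rw [← tsum_mul_left]
  refine Eq.trans ?_ (Equiv.tsum_eq (ge (σ := σ) hε) _)
  refine tsum_congr fun p => ?_
  show 2 * Real.pi * Complex.I * dt (fun i => (ε (σ.symm i) : ℂ) *
      V (gm σ ε p) (σ.symm i)) (kc (k - p)) *
      ((ε (σ.symm j) : ℂ) * V (gm σ ε (k - p)) (σ.symm j)) =
    (ε (σ.symm j) : ℂ) * (2 * Real.pi * Complex.I * dt (V (gm σ ε p))
      (kc (gm σ ε k - gm σ ε p)) * V (gm σ ε k - gm σ ε p) (σ.symm j))
  rw [dt_tr, gm_sub]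
  ring

theorem leray_tr (hε : ∀ j, ε j = 1 ∨ ε j = -1) (a : C3) (k : Z3) (j : Fin 3) :
    leray k (fun i => (ε (σ.symm i) : ℂ) * a (σ.symm i)) j =
      (ε (σ.symm j) : ℂ) * leray (gm σ ε k) a (σ.symm j) := by
  unfold leray
  rw [dt_comm (kc k), dt_tr, nsq_gm hε, dt_comm a]
  have h1 : kc (gm σ ε k) (σ.symm j) = (ε (σ.symm j) : ℂ) * kc k j := by
    show ((ε (σ.symm j) * k (σ (σ.symm j)) : ℤ) : ℂ) = (ε (σ.symm j) : ℂ) * (k j : ℂ)
    rw [Equiv.apply_symm_apply]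
    push_cast
    ring
  rw [h1]
  have h2 := sq_oneC hε (σ.symm j)
  linear_combination (dt (kc (gm σ ε k)) a / ((nsq k : ℝ) : ℂ) * kc k j) * h2

theorem rhs_tr (hε : ∀ j, ε j = 1 ∨ ε j = -1) (φ : ℤ → ℝ) (V : Coef) (k : Z3) (j : Fin 3) :
    rhs (fun k => φ (nsq k)) (tr σ ε V) k j =
      (ε (σ.symm j) : ℂ) * rhs (fun k => φ (nsq k)) V (gm σ ε k) (σ.symm j) := by
  unfold rhs
  have h1 : adv (tr σ ε V) k = fun i => (ε (σ.symm i) : ℂ) * adv V (gm σ ε k) (σ.symm i) := by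
    funext i
    exact adv_tr hε V k i
  rw [h1, leray_tr hε]
  show -((φ (nsq k) : ℝ) : ℂ) * ((ε (σ.symm j) : ℂ) * V (gm σ ε k) (σ.symm j)) -
      (ε (σ.symm j) : ℂ) * leray (gm σ ε k) (adv V (gm σ ε k)) (σ.symm j) =
    (ε (σ.symm j) : ℂ) * (-((φ (nsq (gm σ ε k)) : ℝ) : ℂ) * V (gm σ ε k) (σ.symm j) -
      leray (gm σ ε k) (adv V (gm σ ε k)) (σ.symm j))
  rw [nsq_gm hε]
  ring

theorem norm_tr (hε : ∀ j, ε j = 1 ∨ ε j = -1) (V : Coef) (k : Z3) (j : Fin 3) :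
    ‖tr σ ε V k j‖ = ‖V (gm σ ε k) (σ.symm j)‖ := by
  show ‖(ε (σ.symm j) : ℂ) * V (gm σ ε k) (σ.symm j)‖ = _
  rw [norm_mul]
  rcases hε (σ.symm j) with h | h <;> rw [h] <;> simp

theorem field_tr (hε : ∀ j, ε j = 1 ∨ ε j = -1) {V : Coef} (hV : IsField V) :
    IsField (tr σ ε V) where
  zero := by
    funext i
    show (ε (σ.symm i) : ℂ) * V (gm σ ε 0) (σ.symm i) = 0
    rw [gm_zero, hV.zero, Pi.zero_apply, mul_zero]
  real := fun k j => by
    show (ε (σ.symm j) : ℂ) * V (gm σ ε (-k)) (σ.symm j) =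
      conj ((ε (σ.symm j) : ℂ) * V (gm σ ε k) (σ.symm j))
    rw [gm_neg, hV.real, map_mul, map_intCast]
  div := fun k => by
    have h1 := dt_tr (σ := σ) (ε := ε) (V (gm σ ε k)) k
    rw [dt_comm (V (gm σ ε k)), hV.div] at h1
    rw [dt_comm]
    exact h1
  smooth := fun q => by
    obtain ⟨M, hM⟩ := hV.smooth q
    refine ⟨M, fun k j => ?_⟩
    rw [norm_tr hε, ← len_gm (σ := σ) hε k]
    exact hM _ _

theorem sol_tr (hε : ∀ j, ε j = 1 ∨ ε j = -1) {φ : ℤ → ℝ} {T : ℝ} {V : ℝ → Coef}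
    (hV : Sol (fun k => φ (nsq k)) T V) :
    Sol (fun k => φ (nsq k)) T (fun t => tr σ ε (V t)) where
  field := fun t ht => field_tr hε (hV.field t ht)
  reg := fun q T' hT' => by
    obtain ⟨M, hM⟩ := hV.reg q T' hT'
    refine ⟨M, fun t ht k j => ?_⟩
    rw [norm_tr hε, ← len_gm (σ := σ) hε k]
    exact hM t ht _ _
  eqn := fun k hk j t ht => by
    have h1 := hV.eqn (gm σ ε k) (gm_ne hε hk) (σ.symm j) t ht
    have h2 := h1.const_mul (ε (σ.symm j) : ℂ)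
    rw [rhs_tr hε]
    exact h2

theorem eq_tr (hU : S_UNQ) (hε : ∀ j, ε j = 1 ∨ ε j = -1) {φ : ℤ → ℝ} {T : ℝ} {V : ℝ → Coef}
    (hd : Dmp (fun k => φ (nsq k))) (hV : Sol (fun k => φ (nsq k)) T V)
    (h0 : tr σ ε (V 0) = V 0) : ∀ t ∈ Ico 0 T, ∀ (k : Z3) (i : Fin 3),
      V t (gm σ ε k) i = (ε i : ℂ) * V t k (σ i) := by
  intro t ht k i
  have h1 := hU _ T _ _ hd (sol_tr (σ := σ) hε hV) hV h0 t ht
  have h2 : tr σ ε (V t) k (σ i) = V t k (σ i) := congrFun (congrFun h1 k) (σ i)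
  have h3 : tr σ ε (V t) k (σ i) = (ε i : ℂ) * V t (gm σ ε k) i := by
    show (ε (σ.symm (σ i)) : ℂ) * V t (gm σ ε k) (σ.symm (σ i)) = _
    rw [Equiv.symm_apply_apply]
  rw [← h2, h3, ← mul_assoc, sq_oneC hε, one_mul]

end

theorem t_SYM : S_SYM := by
  intro hU φ T V hd hV h0 t ht
  have h1 : ∀ j : Fin 3, (1 : ℤ) = 1 ∨ (1 : ℤ) = -1 := fun _ => Or.inl rfl
  constructor
  · intro σ k i
    have h2 : tr σ (fun _ => 1) (V 0) = V 0 := by
      funext k i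
      show ((1 : ℤ) : ℂ) * V 0 (fun j => 1 * k (σ j)) (σ.symm i) = V 0 k i
      have h3 := h0.perm σ k (σ.symm i)
      rw [Equiv.apply_symm_apply] at h3
      simp only [one_mul, Int.cast_one]
      exact h3
    have h3 := eq_tr (σ := σ) (ε := fun _ => 1) hU h1 hd hV h2 t ht k i
    have h4 : gm σ (fun _ => 1) k = fun j => k (σ j) := by
      funext j
      exact one_mul _
    rw [h4, Int.cast_one, one_mul] at h3
    exact h3
  · intro ε hε k i
    have h2 : tr (Equiv.refl _) ε (V 0) = V 0 := by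
      funext k i
      show (ε i : ℂ) * V 0 (fun j => ε j * k j) i = V 0 k i
      rw [h0.sign ε hε, ← mul_assoc, sq_oneC hε, one_mul]
    exact eq_tr (σ := Equiv.refl _) hU hε hd hV h2 t ht k i

end Pool.Agent.Y794.VL.Sym
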